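import Pool.Agent.K1H73.DY.Stm

set_option autoImplicit false

/-!
# Roots of dynatomic polynomials in characteristic `p`: exact period and multiplier
-/

namespace Pool.Agent.K1H33.DY

open Polynomial Pool.Agent.K1H73.DY

/-- the multiplier of an iterate at a fixed point -/
lemma mult_it {k : Type} [Field k] (G : k[X]) (y : k) (hy : G.eval y = y) (q : ℕ) :
    (it G q).eval y = y ∧ (it G q).derivative.eval y = (G.derivative.eval y) ^ q := by
  induction q with
  | zero => rw [it_zero]; simp
  | succ q ih =>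
    rw [it_succ]
    refine ⟨by rw [eval_comp, ih.1, hy], ?_⟩
    rw [derivative_comp, eval_mul, eval_comp, ih.1, ih.2, pow_succ]

/-- the arithmetic: a prime for which the sums do not vanish -/
lemma exists_prime {k : Type} [Field k] (p : ℕ) [hp : Fact p.Prime] [CharP k p] (l : k) (N : ℕ)
    (hN : 1 < N) (hne : ∀ e : ℕ, N ≠ orderOf l * p ^ e) :
    ∃ q : ℕ, q.Prime ∧ q ∣ N ∧ ∀ j' e : ℕ, q * j' * e = N → ¬ q ∣ e →
      ∑ i ∈ Finset.range q, (l ^ j') ^ i ≠ 0 := by
  by_cases hr : orderOf l ∣ N
  · obtain ⟨t, ht⟩ := hr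
    have ht0 : t ≠ 0 := by
      rintro rfl
      rw [mul_zero] at ht
      omega
    have hr0 : orderOf l ≠ 0 := by
      intro h0
      rw [h0, zero_mul] at ht
      omega
    have : ∃ q : ℕ, q.Prime ∧ q ∣ t ∧ q ≠ p := by
      by_contra hcon
      push Not at hcon
      have h1 := Nat.eq_prime_pow_of_unique_prime_dvd ht0 (p := p) (fun {d} hd hdt => hcon d hd hdt)
      exact hne _ (by rw [ht]; congr 1)
    obtain ⟨q, hq, hqt, hqp⟩ := this
    refine ⟨q, hq, by rw [ht]; exact hqt.mul_left _, ?_⟩
    intro j' e hje hqe hsum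
    by_cases h1 : l ^ j' = 1
    · rw [h1] at hsum
      simp only [one_pow, Finset.sum_const, Finset.card_range, nsmul_eq_mul, mul_one] at hsum
      rw [CharP.cast_eq_zero_iff k p] at hsum
      exact hqp ((Nat.prime_dvd_prime_iff_eq hp.out hq).1 hsum).symm
    · have h2 : (l ^ j') ^ q = 1 := by
        have := geom_sum_mul (l ^ j') q
        rw [hsum, zero_mul] at this
        exact (sub_eq_zero.1 this.symm)
      rw [← pow_mul] at h2
      obtain ⟨s, hs⟩ := orderOf_dvd_of_pow_eq_one h2
      have h3 : s * e = t := by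
        have : orderOf l * (s * e) = orderOf l * t := by
          rw [← mul_assoc, ← hs, ← ht, ← hje]
          ring
        exact Nat.eq_of_mul_eq_mul_left (Nat.pos_of_ne_zero hr0) this
      have h4 : q ∣ s := by
        have : q ∣ s * e := by rw [h3]; exact hqt
        exact (hq.dvd_mul.1 this).resolve_right hqe
      obtain ⟨s', hs'⟩ := h4
      have h5 : j' = orderOf l * s' := by
        have : q * j' = q * (orderOf l * s') := by
          rw [mul_comm q j', hs, hs']
          ring
        exact Nat.eq_of_mul_eq_mul_left hq.pos this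
      apply h1
      rw [h5, pow_mul, pow_orderOf_eq_one, one_pow]
  · obtain ⟨q, hq, hqN⟩ := Nat.exists_prime_and_dvd (n := N) (by omega)
    refine ⟨q, hq, hqN, ?_⟩
    intro j' e hje _ hsum
    by_cases h1 : l ^ j' = 1
    · apply hr
      rw [← hje]
      exact Dvd.dvd.mul_right (Dvd.dvd.mul_left (orderOf_dvd_of_pow_eq_one h1) _) _
    · have h2 : (l ^ j') ^ q = 1 := by
        have := geom_sum_mul (l ^ j') q
        rw [hsum, zero_mul] at this
        exact (sub_eq_zero.1 this.symm)
      rw [← pow_mul] at h2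
      apply hr
      rw [← hje, mul_comm q j']
      exact Dvd.dvd.mul_right (orderOf_dvd_of_pow_eq_one h2) _

theorem t_KEY (hA : S_A) (hB : S_B) (hPER : S_PER) : S_KEY := by
  intro k _ p hp _ h h2 n hn Φ hΦ y hy
  set f : k → k := fun z => h.eval z with hf
  set m := Function.minimalPeriod f y with hm
  set l := (it h m).derivative.eval y with hl
  have hper : ∀ d : ℕ, (it h d).eval y = y ↔ m ∣ d := by
    intro d
    rw [it_eval]
    exact (Function.isPeriodicPt_iff_minimalPeriod_dvd (f := f) (x := y) (n := d))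
  have hmn : m ∣ n := (hper n).1 (hPER k h h2 n hn Φ hΦ y hy)
  have hm0 : 0 < m := Nat.pos_of_dvd_of_pos hmn hn
  obtain ⟨N, hN⟩ := hmn
  have hN0 : 0 < N := Nat.pos_of_ne_zero (by rintro rfl; omega)
  by_contra hcon
  push Not at hcon
  obtain ⟨hc1, hc2⟩ := hcon
  have hN1 : 1 < N := by
    rcases Nat.lt_or_ge 1 N with h | h
    · exact h
    · exact absurd (by rw [hN, show N = 1 by omega, mul_one]) hc1
  obtain ⟨q, hq, hqN, hqs⟩ := exists_prime (k := k) p l N hN1 (fun e he => hc2 e (by
    rw [hN, he, mul_assoc]))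
  have hqn : q ∣ n := by rw [hN]; exact hqN.mul_left _
  refine hB k h h2 n hn Φ hΦ q hq hqn y ?_ hy
  intro d hd hqd
  obtain ⟨e, he⟩ := hd
  have hd0 : 0 < d := Nat.pos_of_ne_zero (by rintro rfl; omega)
  have hde : n / d = e := by rw [he]; exact Nat.mul_div_cancel_left _ hd0
  rw [hde] at hqd
  have hqd' : q ∣ d := by
    have : q ∣ d * e := by rw [← he]; exact hqn
    exact (hq.dvd_mul.1 this).resolve_right hqd
  by_cases hdy : (it h d).eval y = y
  · have hmd := (hper d).1 hdy
    obtain ⟨j, hj⟩ := hmd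
    have hje : j * e = N := by
      have : m * (j * e) = m * N := by rw [← mul_assoc, ← hj, ← he, hN]
      exact Nat.eq_of_mul_eq_mul_left hm0 this
    have hqj : q ∣ j := by
      have : q ∣ j * e := by rw [hje]; exact hqN
      exact (hq.dvd_mul.1 this).resolve_right hqd
    obtain ⟨j', hj'⟩ := hqj
    have h6 : d = q * (m * j') := by rw [hj, hj']; ring
    have h7 : d / q = m * j' := by rw [h6]; exact Nat.mul_div_cancel_left _ hq.pos
    have h8 : 1 ≤ m * j' := Nat.pos_of_ne_zero (by intro h0; rw [h6, h0, mul_zero] at hd0; omega)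
    have hmy : (it h m).eval y = y := (hper m).2 dvd_rfl
    have h9 : (it h (m * j')).derivative.eval y = l ^ j' := by
      rw [mul_comm m j', it_mul]
      exact (mult_it (it h m) y hmy j').2
    rw [h7]
    conv_lhs => rw [h6]
    apply hA k h h2 q (m * j') hq.one_le h8 y ((hper _).2 (Dvd.intro _ rfl))
    rw [h9]
    exact hqs j' e (by rw [← hj', hje]) hqd
  · have h10 : ¬ (it h (d / q)).eval y = y := by
      intro h0
      apply hdy
      rw [hper] at h0 ⊢
      exact h0.trans (Nat.div_dvd_of_dvd hqd')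
    rw [rootMultiplicity_eq_zero, rootMultiplicity_eq_zero]
    · intro h0
      exact h10 (FF_eval.1 h0)
    · intro h0
      exact hdy (FF_eval.1 h0)

end Pool.Agent.K1H33.DY
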