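import Pool.Agent.K1H73.DY.Stm

set_option autoImplicit false

/-!
# Dynatomic polynomials over a subring
-/

namespace Pool.Agent.K1H33.DY

open Polynomial Pool.Agent.K1H73.DY

lemma Pm_monic {R : Type} [CommRing R] [Nontrivial R] {h : R[X]} (hm : h.Monic) (h2 : h.natDegree = 2)
    (n : ℕ) (e : ℤ) : (Pm h n e).Monic := by
  unfold Pm
  apply monic_prod_of_monic
  intro d hd
  split_ifs
  · exact FF_monic hm h2 (Nat.pos_of_mem_divisors hd)
  · exact monic_one

theorem t_LIFT : S_LIFT := by
  intro K _ A h hm h2 n hn Φ hΦ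
  have hP := Pm_monic hm h2 n (-1)
  have hinj : Function.Injective (Polynomial.map A.subtype) :=
    Polynomial.map_injective _ Subtype.val_injective
  unfold Dyn at hΦ
  rw [← Pm_map, ← Pm_map] at hΦ
  have h3 : (Pm h n 1 /ₘ Pm h n (-1)).map A.subtype = Φ ∧
      (Pm h n 1 %ₘ Pm h n (-1)).map A.subtype = 0 := by
    rw [Polynomial.map_divByMonic _ hP, Polynomial.map_modByMonic _ hP]
    have := div_modByMonic_unique (f := (Pm h n 1).map A.subtype) (g := (Pm h n (-1)).map A.subtype)
      Φ 0 (hP.map A.subtype) ⟨by rw [zero_add, mul_comm, hΦ], by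
        rw [degree_zero]
        exact Ne.bot_lt (by
          intro h0
          exact (hP.map A.subtype).ne_zero (degree_eq_bot.1 h0))⟩
    exact this
  refine ⟨Pm h n 1 /ₘ Pm h n (-1), h3.1, ?_⟩
  unfold Dyn
  apply hinj
  rw [Polynomial.map_mul, h3.1, hΦ]

end Pool.Agent.K1H33.DY
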