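import Pool.Agent.K1H33.DY.Key

set_option autoImplicit false

/-!
# The multiplicity of a fixed point of an iterate
-/

namespace Pool.Agent.K1H33.DY

open Polynomial Pool.Agent.K1H73.DY

lemma comp_sub {k : Type} [Field k] (P G : k[X]) :
    ∃ Q : k[X], P.comp G - P = (G - X) * Q ∧ ∀ y : k, G.eval y = y → Q.eval y = P.derivative.eval y := by
  obtain ⟨K, hK⟩ := Polynomial.binomExpansion (P.map (C : k →+* k[X])) X (G - X)
  have h1 : (P.map (C : k →+* k[X])).eval G = P.comp G := by
    rw [eval_map]; rfl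
  have h2 : (P.map (C : k →+* k[X])).eval X = P := by
    rw [eval_map, ← Polynomial.comp, comp_X]
  have h3 : (P.map (C : k →+* k[X])).derivative.eval X = P.derivative := by
    rw [derivative_map, eval_map, ← Polynomial.comp, comp_X]
  rw [add_sub_cancel, h1, h2, h3] at hK
  refine ⟨P.derivative + K * (G - X), ?_, ?_⟩
  · rw [hK]; ring
  · intro y hy
    rw [eval_add, eval_mul, eval_sub, eval_X, hy, sub_self, mul_zero, add_zero]

theorem t_A : S_A := by
  intro k _ h h2 q j hq hj y hy hsum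
  set G := it h j with hG
  have h1 : ∀ i : ℕ, ∃ Q : k[X], it G (i + 1) - it G i = (G - X) * Q ∧
      Q.eval y = (G.derivative.eval y) ^ i := by
    intro i
    obtain ⟨Q, hQ1, hQ2⟩ := comp_sub (it G i) G
    refine ⟨Q, ?_, ?_⟩
    · rw [it_add G i 1, it_one]
      exact hQ1
    · rw [hQ2 y hy]
      exact (mult_it G y hy i).2
  choose Q hQ1 hQ2 using h1
  have h4 : FF h (q * j) = FF h j * ∑ i ∈ Finset.range q, Q i := by
    unfold FF
    rw [it_mul, ← hG, Finset.mul_sum, ← Finset.sum_congr rfl (fun i _ => hQ1 i), Finset.sum_range_sub,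
      it_zero]
  have h5 : (∑ i ∈ Finset.range q, Q i).eval y ≠ 0 := by
    rw [eval_finsetSum, Finset.sum_congr rfl (fun i _ => hQ2 i)]
    exact hsum
  have h6 : FF h (q * j) ≠ 0 := FF_ne_zero h2 (Nat.mul_pos hq hj)
  rw [h4] at h6 ⊢
  rw [rootMultiplicity_mul h6, (rootMultiplicity_eq_zero h5), add_zero]

end Pool.Agent.K1H33.DY
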